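import Pool.Agent.H24.SidE.Concl

/-!
A Sidon set in `{1, …, n}` with more than `√n + (π / (4√2)) n^(1/4)` elements is enriched near an end.

`hL`, `hR`: up to distance `(9/4) n^(3/4)` from the left (right) end, `A` has at most `κ₁` (`κ₂`) times
the average density `1/√n`, with a surplus of at most `e₁` (`e₂`) elements. For `κ₁ = κ₂ = 1` the
constant is `π / (4√2) < 0.5554`.
-/

namespace Pool.Agent.Results.MP_b3cbc5_nt.EndProfile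

theorem result (n : ℕ) (A : Finset ℕ) (κ₁ κ₂ e₁ e₂ : ℝ)
    (hκ : 2 ≤ κ₁ + κ₂) (he₁ : 0 ≤ e₁) (he₂ : 0 ≤ e₂)
    (hA : A ⊆ Finset.Icc 1 n)
    (hS : ∀ a ∈ A, ∀ b ∈ A, ∀ c ∈ A, ∀ d ∈ A,
      a + b = c + d → (a = c ∧ b = d) ∨ (a = d ∧ b = c))
    (hL : ∀ y : ℕ, 1 ≤ y → (y : ℝ) ≤ 9 / 4 * (n : ℝ) ^ ((3 : ℝ) / 4) →
      ((A.filter fun a => a ≤ y).card : ℝ) ≤ κ₁ * y / Real.sqrt n + e₁)
    (hR : ∀ y : ℕ, 1 ≤ y → (y : ℝ) ≤ 9 / 4 * (n : ℝ) ^ ((3 : ℝ) / 4) →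
      ((A.filter fun a => n < a + y).card : ℝ) ≤ κ₂ * y / Real.sqrt n + e₂) :
    (A.card : ℝ) ≤ Real.sqrt n
      + Real.pi / (4 * Real.sqrt 2) * Real.sqrt (κ₁ + κ₂ - 1) * (n : ℝ) ^ ((1 : ℝ) / 4)
      + (e₁ + e₂) / 2 + 24 :=
  Pool.Agent.H24.SidE.end_profile n A κ₁ κ₂ e₁ e₂ hκ he₁ he₂ hA hS hL hR

end Pool.Agent.Results.MP_b3cbc5_nt.EndProfile
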