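import Pool.Agent.H93.SidD

/-!
Every Sidon set contained in `{1, …, n}` has at most `√n + (2√2/3) n^(1/4) + 20` elements.

The proof replaces the window of Lindström's argument by the triangular weight and uses the exact
minimal energy of the resulting kernel on an interval, computed with a renewal sequence.
-/

namespace Pool.Agent.Results.MP_b3cbc5_nt.TriangularBound

theorem result (n : ℕ) (A : Finset ℕ) (hA : A ⊆ Finset.Icc 1 n)
    (hS : ∀ a ∈ A, ∀ b ∈ A, ∀ c ∈ A, ∀ d ∈ A,
      a + b = c + d → (a = c ∧ b = d) ∨ (a = d ∧ b = c)) :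
    (A.card : ℝ) ≤ Real.sqrt n + 2 * Real.sqrt 2 / 3 * (n : ℝ) ^ ((1 : ℝ) / 4) + 20 :=
  Pool.Agent.H93.SD.sidon_bound n A hA hS

end Pool.Agent.Results.MP_b3cbc5_nt.TriangularBound
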